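import Pool.Agent.H7.CP.Targets
import Pool.Agent.H17.HD.XK

/-!
# (CMR) the Mitchell order of a captured point (MP_e37c09_lc)
-/

open Ordinal Cardinal Order Set
open scoped ZFSet

universe u

namespace Pool.Agent.H64.CP.CMR

open _root_.HD
open Pool.Agent.H64.HDA.DN (mge_iff do_sInf do_succ)
open Pool.Agent.H63.HDA.LI (os_inter os_congr os_sub eq_os)
open Pool.Agent.H17.HD.XK (nth_uniq)

/-! ## Doubling -/

/-- `dbl (ω q + r) = ω q + 2 r` -/
noncomputable def dbl (a : Ordinal.{u}) : Ordinal.{u} := a + a % ω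

theorem le_dbl (a : Ordinal.{u}) : a ≤ dbl a := le_self_add

theorem mod_nat (a : Ordinal.{u}) : ∃ n : ℕ, a % ω = n :=
  Ordinal.lt_omega0.1 (Ordinal.mod_lt a Ordinal.omega0_ne_zero)

theorem dbl_eq (a : Ordinal.{u}) : ∃ n : ℕ, a = ω * (a / ω) + n ∧
    dbl a = ω * (a / ω) + ((n + n : ℕ) : Ordinal.{u}) := by
  obtain ⟨n, hn⟩ := mod_nat a
  have h1 : ω * (a / ω) + a % ω = a := Ordinal.div_add_mod a ω
  refine ⟨n, by rw [← hn, h1], ?_⟩
  unfold dbl
  conv_lhs => rw [hn, ← h1, hn]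
  rw [add_assoc, Nat.cast_add]

theorem dbl_lt {ν a : Ordinal.{u}} (hν : IsSuccLimit ν) (ha : a < ν) : succ (dbl a) < ν := by
  have key : ∀ n : ℕ, a + n < ν := by
    intro n
    induction n with
    | zero => simpa using ha
    | succ n ih =>
      have := hν.succ_lt ih
      rwa [Nat.cast_succ, ← add_assoc, ← Ordinal.add_one_eq_succ] at *
  obtain ⟨n, hn⟩ := mod_nat a
  refine hν.succ_lt ?_
  unfold dbl
  rw [hn]
  exact key n

theorem dm {q q' : Ordinal.{u}} {n n' : ℕ} (h : ω * q + n = ω * q' + n') : q = q' ∧ n = n' := by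
  have h1 : (n : Ordinal.{u}) < ω := Ordinal.natCast_lt_omega0 n
  have h2 : (n' : Ordinal.{u}) < ω := Ordinal.natCast_lt_omega0 n'
  have h3 : (ω * q + n) / ω = q := by
    rw [Ordinal.mul_add_div _ Ordinal.omega0_ne_zero, Ordinal.div_eq_zero_of_lt h1, add_zero]
  have h4 : (ω * q' + n') / ω = q' := by
    rw [Ordinal.mul_add_div _ Ordinal.omega0_ne_zero, Ordinal.div_eq_zero_of_lt h2, add_zero]
  have h5 : q = q' := by rw [← h3, ← h4, h]
  subst h5
  exact ⟨rfl, Nat.cast_injective (add_left_cancel h)⟩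

theorem dbl_inj {a b : Ordinal.{u}} (h : dbl a = dbl b) : a = b := by
  obtain ⟨n, h1, h2⟩ := dbl_eq a
  obtain ⟨m, h3, h4⟩ := dbl_eq b
  rw [h2, h4] at h
  obtain ⟨h5, h6⟩ := dm h
  have h7 : n = m := by omega
  rw [h1, h3, h5, h7]

theorem dbl_succ_ne (a b : Ordinal.{u}) : succ (dbl a) ≠ dbl b := by
  intro h
  obtain ⟨n, h1, h2⟩ := dbl_eq a
  obtain ⟨m, h3, h4⟩ := dbl_eq b
  rw [h2, h4, ← Ordinal.add_one_eq_succ, add_assoc, ← Nat.cast_one, ← Nat.cast_add] at h
  obtain ⟨h5, h6⟩ := dm h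
  omega

/-! ## Definability of `dbl` -/

theorem nth_add (b a z : Ordinal.{u}) : nth {x | b ≤ x} a z ↔ z = b + a := by
  have h : nth {x | b ≤ x} a (b + a) := by
    refine ⟨(le_self_add : b ≤ b + a), fun x => b + x, fun x y hxy _ => by simpa using hxy,
      fun x hx => ⟨(le_self_add : b ≤ b + x), by simpa using hx⟩, fun y hy hlt => ?_⟩
    exact ⟨y - b, by rwa [Ordinal.sub_lt_of_le hy], Ordinal.add_sub_cancel_of_le hy⟩
  exact ⟨fun h1 => nth_uniq All.vh h1 h, fun h1 => by rw [h1]; exact h⟩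

theorem do_add (i j k : ℕ) : DO.{u} fun w => w i = w j + w k := by
  have h1 := All.db.{u} (fun a w => w 0 ≤ a) (DO.le 1 0)
  have h2 : DO.{u} fun w => w 1 = w 2 + w 0 := h1.congr fun w => (nth_add (w 2) (w 0) (w 1)).symm
  exact (h2.ren fun n => if n = 0 then k else if n = 1 then i else j).congr fun w => by simp

theorem do_dbl (i j : ℕ) : DO.{u} fun w => w i = dbl (w j) := by
  have h1 : DO.{u} fun w => ∃ l, ∃ n, (¬ ∃ z, l = succ z) ∧ n < ω ∧ w j = l + n ∧
      w i = w j + n := by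
    refine DO.ex (R := fun l w => ∃ n, (¬ ∃ z, l = succ z) ∧ n < ω ∧ w j = l + n ∧
      w i = w j + n) (DO.ex (R := fun n w => (¬ ∃ z, w 0 = succ z) ∧ n < ω ∧ w (j + 1) = w 0 + n ∧
      w (i + 1) = w (j + 1) + n) ?_)
    refine (DO.ex (R := fun z w => w 1 = succ z) (do_succ 2 0)).not.and ((DO.ltc 0 ω).and
      ((do_add (j + 2) 1 0).and (do_add (i + 2) (j + 2) 0)))
  refine h1.congr fun w => ?_
  constructor
  · intro h
    obtain ⟨n, hn⟩ := mod_nat (w j)
    refine ⟨ω * (w j / ω), n, ?_, Ordinal.natCast_lt_omega0 n, ?_, ?_⟩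
    · rintro ⟨z, hz⟩
      obtain ⟨m, hm, -⟩ := dbl_eq z
      rw [hm, ← Ordinal.add_one_eq_succ, add_assoc, ← Nat.cast_one, ← Nat.cast_add] at hz
      have h2 : ω * (w j / ω) + (0 : ℕ) = ω * (z / ω) + (m + 1 : ℕ) := by
        rw [Nat.cast_zero, add_zero, hz]
      have := (dm h2).2
      omega
    · rw [← hn]
      exact (Ordinal.div_add_mod _ _).symm
    · rw [h, dbl, hn]
  · rintro ⟨l, n, hl, hn, h2, h3⟩
    obtain ⟨n, rfl⟩ := Ordinal.lt_omega0.1 hn
    obtain ⟨m, hm, -⟩ := dbl_eq l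
    have hm0 : m = 0 := by
      rcases m with _ | m
      · rfl
      · exact absurd ⟨ω * (l / ω) + m, by
          rw [← Ordinal.add_one_eq_succ, add_assoc, ← Nat.cast_one, ← Nat.cast_add]
          exact hm⟩ hl
    subst hm0
    rw [Nat.cast_zero, add_zero] at hm
    have h4 : w j % ω = n := by
      rw [h2, hm, Ordinal.mul_add_mod_self, Ordinal.mod_eq_of_lt (Ordinal.natCast_lt_omega0 n)]
    rw [h3, dbl, h4]

/-! ## Sets of sets -/

theorem cons_shift (v : ℕ → ZFSet.{u}) (k : ℕ) : (cons (v 0) fun n => v (n + k + 1)) =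
    fun n => v (if n = 0 then 0 else n + k) := by
  funext n
  rcases n with _ | n
  · simp
  · show v (n + k + 1) = v (if n + 1 = 0 then 0 else n + 1 + k)
    rw [if_neg (Nat.succ_ne_zero n)]
    congr 1
    omega

section

variable {en : Ordinal.{u} → ZFSet.{u}}

/-- the set of the `en e ⊆ b` with `R e` -/
noncomputable def coll (en : Ordinal.{u} → ZFSet.{u}) (b : Ordinal.{u})
    (R : Ordinal.{u} → Prop) : ZFSet.{u} :=
  ZFSet.sep (fun s => ∃ e, en e = s ∧ R e) (ZFSet.powerset b.toZFSet)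

theorem mem_coll {b : Ordinal.{u}} {R : Ordinal.{u} → Prop} {s : ZFSet.{u}} :
    s ∈ coll en b R ↔ s ⊆ b.toZFSet ∧ ∃ e, en e = s ∧ R e := by
  unfold coll
  rw [ZFSet.mem_sep, ZFSet.mem_powerset]

theorem do_coll (hen : EN en) {R : Ordinal.{u} → (ℕ → Ordinal.{u}) → Prop}
    (hR : DO fun w => R (w 0) (fun n => w (n + 1))) (i j : ℕ) :
    DO fun w => en (w i) = coll en (w j) (fun e => R e w) := by
  obtain ⟨Q, hQ, hR⟩ := hR
  have h1 : DZ.{u} fun v => ∃ y, ((v i).IsOrdinal ∧ y = en (v i).rank) ∧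
      ∀ z, (z ∈ y ↔ z ⊆ v j ∧ ∃ c, (c.IsOrdinal ∧ z = en c.rank) ∧ Q (cons c v)) := by
    refine DZ.ex (R := fun y v => ((v i).IsOrdinal ∧ y = en (v i).rank) ∧
      ∀ z, (z ∈ y ↔ z ⊆ v j ∧ ∃ c, (c.IsOrdinal ∧ z = en c.rank) ∧ Q (cons c v))) (DZ.and ?_ ?_)
    · exact hen.dz.ren fun n => if n = 0 then i + 1 else 0
    · refine DZ.all (R := fun z v => z ∈ v 0 ↔ z ⊆ v (j + 1) ∧ ∃ c, (c.IsOrdinal ∧
        z = en c.rank) ∧ Q (cons c fun n => v (n + 1))) (DZ.iff (DZ.mem 0 1)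
        (DZ.and (Loc.sub 0 (j + 2)).dz (DZ.ex (R := fun c v => (c.IsOrdinal ∧
        v 0 = en c.rank) ∧ Q (cons c fun n => v (n + 2))) (DZ.and ?_ ?_))))
      · exact hen.dz.ren fun n => if n = 0 then 0 else 1
      · refine (hQ.ren fun n => if n = 0 then 0 else n + 2).congr fun v => ?_
        rw [← cons_shift v 2]
  refine h1.do.congr fun w => ?_
  have e1 : (ov w i).rank = w i := rank_toZFSet _
  have key : ∀ z, z ∈ coll en (w j) (fun e => R e w) ↔ (z ⊆ ov w j ∧
      ∃ c : ZFSet.{u}, (c.IsOrdinal ∧ z = en c.rank) ∧ Q (cons c (ov w))) := by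
    intro z
    rw [mem_coll]
    refine and_congr_right fun _ => ?_
    constructor
    · rintro ⟨e, he, h2⟩
      refine ⟨e.toZFSet, ⟨ZFSet.isOrdinal_toZFSet _, by rw [rank_toZFSet, he]⟩, ?_⟩
      have := (hR (cns e w)).1 h2
      rwa [ov_cns] at this
    · rintro ⟨c, ⟨hc1, hc2⟩, h2⟩
      obtain ⟨e, rfl⟩ := ord_of hc1
      rw [rank_toZFSet] at hc2
      refine ⟨e, hc2.symm, ?_⟩
      have := (hR (cns e w)).2 (by rwa [ov_cns])
      exact this
  constructor
  · intro h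
    refine ⟨_, ⟨ZFSet.isOrdinal_toZFSet _, rfl⟩, fun z => ?_⟩
    rw [e1, h]
    exact key z
  · rintro ⟨y, ⟨-, rfl⟩, h⟩
    rw [e1] at h
    ext z
    rw [key]
    exact h z

theorem od_coll (hen : EN en) {R : Ordinal.{u} → Prop} (hR : DO fun w => R (w 0))
    (b : Ordinal.{u}) : OD (coll en b R) := by
  obtain ⟨Q, hQ, hR⟩ := hR
  refine OD.of_mem (P := fun v => v 0 ⊆ b.toZFSet ∧ ∃ c, (c.IsOrdinal ∧ v 0 = en c.rank) ∧
    Q (fun _ => c)) ?_ fun v => ?_
  · refine DZ.od (R := fun k v => v 0 ⊆ k ∧ ∃ c, (c.IsOrdinal ∧ v 0 = en c.rank) ∧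
      Q (fun _ => c)) (OD.ordinal b) (DZ.and (Loc.sub 1 0).dz (DZ.ex
      (R := fun c v => (c.IsOrdinal ∧ v 1 = en c.rank) ∧ Q (fun _ => c)) (DZ.and ?_ ?_)))
    · exact hen.dz.ren fun n => if n = 0 then 0 else 2
    · exact hQ.ren fun _ => 0
  · rw [mem_coll]
    refine and_congr_right fun _ => ?_
    constructor
    · rintro ⟨c, ⟨hc1, hc2⟩, h2⟩
      obtain ⟨e, rfl⟩ := ord_of hc1
      rw [rank_toZFSet] at hc2
      exact ⟨e, hc2.symm, (hR fun _ => e).2 h2⟩
    · rintro ⟨e, he, h2⟩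
      exact ⟨e.toZFSet, ⟨ZFSet.isOrdinal_toZFSet _, by rw [rank_toZFSet, he]⟩,
        (hR fun _ => e).1 h2⟩

theorem hod_coll (hen : EN en) {R : Ordinal.{u} → Prop} (hR : DO fun w => R (w 0))
    (b : Ordinal.{u}) : HOD (coll en b R) := by
  refine hod_iff.2 ⟨od_coll hen hR b, fun y hy => ?_⟩
  obtain ⟨h1, e, he, -⟩ := mem_coll.1 hy
  exact HOD.of_sub ((hen.od y).2 ⟨e, he⟩) h1

/-- the sum of two sets -/
def sm (x : ZFSet.{u}) (X : Set Ordinal.{u}) : Set Ordinal.{u} :=
  {c | (∃ a : Ordinal.{u}, c = dbl a ∧ a.toZFSet ∈ x) ∨ ∃ a ∈ X, c = succ (dbl a)}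

theorem dbl_mem_sm {x : ZFSet.{u}} {X : Set Ordinal.{u}} {a : Ordinal.{u}} :
    dbl a ∈ sm x X ↔ a.toZFSet ∈ x := by
  constructor
  · rintro (⟨b, hb, h⟩ | ⟨b, -, hb⟩)
    · rw [dbl_inj hb]
      exact h
    · exact absurd hb.symm (dbl_succ_ne b a)
  · intro h
    exact Or.inl ⟨a, rfl, h⟩

theorem succ_mem_sm {x : ZFSet.{u}} {X : Set Ordinal.{u}} {a : Ordinal.{u}} :
    succ (dbl a) ∈ sm x X ↔ a ∈ X := by
  constructor
  · rintro (⟨b, hb, -⟩ | ⟨b, h, hb⟩)
    · exact absurd hb (dbl_succ_ne a b)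
    · rw [dbl_inj (Order.succ_injective hb)]
      exact h
  · intro h
    exact Or.inr ⟨a, h, rfl⟩

theorem do_sm {x : ZFSet.{u}} (hx : OD x) {X : Ordinal.{u} → (ℕ → Ordinal.{u}) → Prop}
    (hX : DO fun w => X (w 0) (fun n => w (n + 1))) :
    DO fun w => w 0 ∈ sm x {a | X a (fun n => w (n + 1))} := by
  have h1 : DO fun w => (∃ a : Ordinal.{u}, w 0 = dbl a ∧ a.toZFSet ∈ x) ∨
      ∃ a, X a (fun n => w (n + 1)) ∧ ∃ d, d = dbl a ∧ w 0 = succ d := by
    refine DO.or (DO.ex (R := fun a w => w 0 = dbl a ∧ a.toZFSet ∈ x) ((do_dbl 1 0).and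
      (DO.s1 (X := fun a => a.toZFSet ∈ x) hx.ds 0)))
      (DO.ex (R := fun a w => X a (fun n => w (n + 1)) ∧ ∃ d, d = dbl a ∧ w 0 = succ d)
        (DO.and ?_ (DO.ex (R := fun d w => d = dbl (w 0) ∧ w 1 = succ d)
          ((do_dbl 0 1).and (do_succ 2 0)))))
    refine (hX.ren fun n => if n = 0 then 0 else n + 1).congr fun w => ?_
    have : (fun n => w (if n + 1 = 0 then 0 else n + 1 + 1)) = fun n => w (n + 1 + 1) := by
      funext n
      rw [if_neg (Nat.succ_ne_zero n)]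
    show X (w 0) (fun n => w (n + 1 + 1)) ↔ X (w (if 0 = 0 then 0 else 0 + 1))
      (fun n => w (if n + 1 = 0 then 0 else n + 1 + 1))
    rw [this, if_pos rfl]
  refine h1.congr fun w => ?_
  show (_ ∨ _) ↔ _
  refine or_congr Iff.rfl ?_
  constructor
  · rintro ⟨a, h, h2⟩
    exact ⟨a, h, _, rfl, h2⟩
  · rintro ⟨a, h, d, rfl, h2⟩
    exact ⟨a, h, h2⟩

theorem X (hLSM : T_LSM.{u}) : T_CMR.{u} := by
  intro ν θ hF hp
  obtain ⟨en, hen⟩ := All.en.{u}
  obtain ⟨f, hf, hf1, hf2⟩ := hp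
  have hDG := All.dgc en hen
  have hE : DO fun w => w 0 ∈ E en (w 1) := (t_EA en hen).1
  have key : ∀ θ', θ' ≤ θ → ∃ U, MGe ν θ' U := by
    intro θ'
    induction θ' using WellFoundedLT.induction with
    | ind θ' ih =>
      intro hθ
      obtain ⟨m, hm⟩ : ∃ m : Ordinal.{u} → Ordinal.{u}, m = fun ζ => sInf {c | MGe ν ζ (en c)} :=
        ⟨_, rfl⟩
      have hm1 : ∀ ζ < θ', MGe ν ζ (en (m ζ)) := by
        intro ζ hζ
        obtain ⟨U, hU⟩ := ih ζ hζ (hζ.le.trans hθ)
        have h1 : HMeas ν U := by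
          rw [mge_iff] at hU
          exact hU.1
        obtain ⟨e, he⟩ := (hen.od U).1 h1.hod.od
        have : m ζ ∈ {c | MGe ν ζ (en c)} := by
          rw [hm]
          exact csInf_mem ⟨e, by rw [Set.mem_ofPred_eq, he]; exact hU⟩
        exact this
      have hm2 : DR fun a b => b = m a := by
        have h1 : DO fun w => w 1 = sInf {z | MGe ν (w 0) (en z)} :=
          do_sInf (S := fun z w => MGe ν (w 0) (en z)) (DO.sub
            (R := fun n w => MGe n (w 1) (en (w 0))) ν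
            (DO.s3 (X := fun a b c => MGe a b (en c)) hDG 0 2 1)) 1
        rw [hm]
        exact h1
      -- the set `A`
      obtain ⟨P, hP⟩ : ∃ P : Ordinal.{u} → Ordinal.{u} → Prop, P = fun n e => ∃ ζ < θ',
        ZFSet.pair (os n {a | ∃ d, d = dbl a ∧ d ∈ E en e}) ζ.toZFSet ∈ f ∧
        ∃ d, d = m ζ ∧ os n {a | ∃ c, c = dbl a ∧ ∃ c', c' = succ c ∧ c' ∈ E en e} ∈ en d :=
        ⟨_, rfl⟩
      have hPD : DO fun w => P (w 0) (w 1) := by
        rw [hP]
        refine DO.exLtc (R := fun ζ w => ZFSet.pair (os (w 0) {a | ∃ d, d = dbl a ∧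
          d ∈ E en (w 1)}) ζ.toZFSet ∈ f ∧ ∃ d, d = m ζ ∧ os (w 0) {a | ∃ c, c = dbl a ∧
          ∃ c', c' = succ c ∧ c' ∈ E en (w 1)} ∈ en d) θ' (DO.and ?_ (DO.ex
          (R := fun d w => d = m (w 0) ∧ os (w 1) {a | ∃ c, c = dbl a ∧
          ∃ c', c' = succ c ∧ c' ∈ E en (w 2)} ∈ en d) (DO.and ?_ ?_)))
        · exact DO.setArg (R := fun s v => ZFSet.pair s (v 0) ∈ f)
            (DZ.od (R := fun f v => ZFSet.pair (v 0) (v 1) ∈ f) hf.od (loc_pmem 1 2 0).dz)
            (X := fun a w => ∃ d, d = dbl a ∧ d ∈ E en (w 2))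
            (DO.ex (R := fun d w => d = dbl (w 0) ∧ d ∈ E en (w 3)) ((do_dbl 0 1).and
              (DO.s2 (X := fun a b => a ∈ E en b) hE 0 4))) 1
        · exact DO.s2 (X := fun a b => b = m a) hm2 1 0
        · exact Pool.Agent.H64.HDA.DN.doMem hen (X := fun a w => ∃ c, c = dbl a ∧
            ∃ c', c' = succ c ∧ c' ∈ E en (w 3))
            (DO.ex (R := fun c w => c = dbl (w 0) ∧ ∃ c', c' = succ c ∧ c' ∈ E en (w 4))
              ((do_dbl 0 1).and (DO.ex (R := fun c' w => c' = succ (w 0) ∧ c' ∈ E en (w 5))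
                ((do_succ 0 1).and (DO.s2 (X := fun a b => a ∈ E en b) hE 0 6))))) 2 0
      have hPν : DO fun w => P ν (w 0) := DO.sub (R := fun n w => P n (w 0)) ν hPD
      obtain ⟨A, hA⟩ : ∃ A, A = coll en ν (P ν) := ⟨_, rfl⟩
      have hAH : HOD A := by rw [hA]; exact hod_coll hen hPν ν
      obtain ⟨U, h, hU, hh, hUA⟩ := hF A hAH fun x hx => by
        rw [hA] at hx
        exact (mem_coll.1 hx).1
      have hNU : NMe ν U := (All.hmi ν U).1 hU
      have hlim := hNU.lim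
      refine ⟨U, (mge_iff ν θ' U).2 ⟨hU, fun ζ hζ => ⟨en (m ζ), hm1 ζ hζ, ?_⟩⟩⟩
      have hNW : NMe ν (en (m ζ)) := by
        have h1 := hm1 ζ hζ
        rw [mge_iff] at h1
        exact (All.hmi _ _).1 h1.1
      obtain ⟨x, hx, hxν, hxf⟩ := hf2 ζ (hζ.trans_le hθ)
      -- the sum
      have dsm : ∀ {X : Set Ordinal.{u}}, DS X → DS (sm x X) := fun {X} hX =>
        do_sm hx.od (X := fun a _ => a ∈ X) (hX.s1 0)
      have hsum : ∀ X : Set Ordinal.{u}, DS X →
          (os ν (sm x X) ∈ A ↔ os ν X ∈ en (m ζ)) := by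
        intro X hX
        have e1 : ∀ e, en e = os ν (sm x X) →
            os ν {a | ∃ d, d = dbl a ∧ d ∈ E en e} = x := by
          intro e he
          conv_rhs => rw [eq_os hxν]
          refine os_congr fun a ha => ?_
          show (∃ d, d = dbl a ∧ d.toZFSet ∈ en e) ↔ a.toZFSet ∈ x
          rw [he]
          constructor
          · rintro ⟨d, rfl, h2⟩
            exact dbl_mem_sm.1 (ord_mem_os.1 h2).2
          · intro h2
            exact ⟨_, rfl, ord_mem_os.2 ⟨(lt_succ _).trans (dbl_lt hlim ha), dbl_mem_sm.2 h2⟩⟩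
        have e2 : ∀ e, en e = os ν (sm x X) →
            os ν {a | ∃ c, c = dbl a ∧ ∃ c', c' = succ c ∧ c' ∈ E en e} = os ν X := by
          intro e he
          refine os_congr fun a ha => ?_
          show (∃ c, c = dbl a ∧ ∃ c', c' = succ c ∧ c'.toZFSet ∈ en e) ↔ a ∈ X
          rw [he]
          constructor
          · rintro ⟨c, rfl, c', rfl, h2⟩
            exact succ_mem_sm.1 (ord_mem_os.1 h2).2
          · intro h2
            exact ⟨_, rfl, _, rfl, ord_mem_os.2 ⟨dbl_lt hlim ha, succ_mem_sm.2 h2⟩⟩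
        rw [hA, mem_coll, hP]
        constructor
        · rintro ⟨-, e, he, ζ', hζ', h1, d, rfl, h2⟩
          rw [e1 e he] at h1
          rw [e2 e he] at h2
          rwa [hf1 x ζ ζ' hxf h1]
        · intro h1
          obtain ⟨e, he⟩ := (hen.od _).1 (od_os (dsm hX) ν)
          refine ⟨os_sub _ _, e, he, ζ, hζ, ?_, _, rfl, ?_⟩
          · rw [e1 e he]
            exact hxf
          · rw [e2 e he]
            exact h1
      -- the codes
      obtain ⟨R, hR⟩ : ∃ R : Ordinal.{u} → Ordinal.{u} → Prop, R = fun b e =>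
        ZFSet.pair b.toZFSet (os b {a | a ∈ sm x {a | a ∈ E en e}}) ∈ h := ⟨_, rfl⟩
      have hRD : DO fun w => R (w 1) (w 0) := by
        rw [hR]
        refine DO.setArg (R := fun s v => ZFSet.pair (v 1) s ∈ h) ?_
          (X := fun c w => c ∈ sm x {a | a ∈ E en (w 0)}) ?_ 1
        · exact DZ.od (R := fun h v => ZFSet.pair (v 2) (v 0) ∈ h) hh.od (loc_pmem 3 1 0).dz
        · exact do_sm hx.od (X := fun a w => a ∈ E en (w 0))
            (DO.s2 (X := fun a b => a ∈ E en b) hE 0 1)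
      have hRb : ∀ b, DO fun w => R b (w 0) := fun b =>
        DO.sub (R := fun n w => R n (w 0)) b (hRD.ren fun n => if n = 0 then 1 else 0)
      obtain ⟨c, hc⟩ : ∃ c : Ordinal.{u} → Ordinal.{u},
        c = fun b => sInf {e | en e = coll en b (R b)} := ⟨_, rfl⟩
      have hc1 : ∀ b, en (c b) = coll en b (R b) := by
        intro b
        obtain ⟨e, he⟩ := (hen.od _).1 (od_coll hen (hRb b) b)
        have : c b ∈ {e | en e = coll en b (R b)} := by
          rw [hc]
          exact csInf_mem ⟨e, he⟩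
        exact this
      have hc2 : DR fun a b => b = c a := by
        have h1 : DO fun w => w 1 = sInf {z | en z = coll en (w 0) (fun e => R (w 0) e)} :=
          do_sInf (S := fun z w => en z = coll en (w 0) (fun e => R (w 0) e))
            (do_coll hen (R := fun e w => R (w 1) e) (DO.s2 (X := fun a b => R b a) hRD 0 2) 0 1) 1
        rw [hc]
        exact h1
      refine (hLSM en hen ν U (en (m ζ)) c hc2 hNU hNW (fun b => ?_) fun X hX => ?_).2
      · rw [hc1 b]
        exact ⟨hod_coll hen (hRb b) b, fun y hy => (mem_coll.1 hy).1⟩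
      · rw [← hsum X hX, hUA _ (hod_os (dsm hX) ν) (os_sub _ _)]
        have : ZFSet.sep (fun b => ZFSet.pair b (os ν (sm x X) ∩ b) ∈ h) ν.toZFSet =
            os ν {b | os b X ∈ en (c b)} := by
          ext z
          rw [ZFSet.mem_sep, mem_os]
          have k1 : ∀ b < ν, (ZFSet.pair b.toZFSet (os ν (sm x X) ∩ b.toZFSet) ∈ h ↔
              os b X ∈ en (c b)) := by
            intro b hb
            have k2 : ∀ e, en e = os b X → os b {a | a ∈ sm x {a | a ∈ E en e}} =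
                os b (sm x X) := by
              intro e he
              refine os_congr fun d hd => ?_
              show (_ ∨ _) ↔ (_ ∨ _)
              refine or_congr Iff.rfl ?_
              constructor
              · rintro ⟨a, ha, h1⟩
                refine ⟨a, ?_, h1⟩
                have : a.toZFSet ∈ en e := ha
                rw [he] at this
                exact (ord_mem_os.1 this).2
              · rintro ⟨a, ha, h1⟩
                refine ⟨a, ?_, h1⟩
                show a.toZFSet ∈ en e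
                rw [he]
                refine ord_mem_os.2 ⟨?_, ha⟩
                rw [h1] at hd
                exact (le_dbl a).trans_lt ((lt_succ _).trans hd)
            rw [os_inter hb, hc1 b, mem_coll, hR]
            constructor
            · intro h1
              obtain ⟨e, he⟩ := (hen.od _).1 (od_os hX b)
              refine ⟨os_sub _ _, e, he, ?_⟩
              beta_reduce
              rw [k2 e he]
              exact h1
            · rintro ⟨-, e, he, h1⟩
              rwa [k2 e he] at h1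
          constructor
          · rintro ⟨h1, h2⟩
            obtain ⟨b, hb, rfl⟩ := mem_toZFSet_iff.1 h1
            exact ⟨b, hb, (k1 b hb).1 h2, rfl⟩
          · rintro ⟨b, hb, h2, rfl⟩
            exact ⟨toZFSet_mem_toZFSet_iff.2 hb, (k1 b hb).2 h2⟩
        rw [this]
  exact key θ le_rfl

end

end Pool.Agent.H64.CP.CMR
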